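import Pool.Agent.Helper40_TDV.Gen1

/-!
# Squad TDV (MP_917879_lc), module GEN

A set of reals which is invariant under the two permutations `u` and `v` of the positions is
invariant under Thompson's group `V`.
-/

set_option autoImplicit false

namespace Pool.Agent.TDV.H40

open Pool.Agent.TDV

/-! ## The commutative semigroup of reals modulo the congruence -/

theorem Cg.right {y y' : ℕ → Bool} (x : ℕ → Bool) (h : Cg y y') : Cg (jo x y) (jo x y') :=
  ((Cg.comm x y).trans (Cg.left x h)).trans (Cg.comm y' x)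

/-- the setoid of `Cg` -/
def cgSetoid : Setoid (ℕ → Bool) := ⟨Cg, ⟨Cg.refl, Cg.symm, Cg.trans⟩⟩

/-- the reals modulo `Cg` -/
def Sg : Type := Quotient cgSetoid

/-- the class of a real -/
def cl (x : ℕ → Bool) : Sg := Quotient.mk cgSetoid x

theorem cl_eq {x y : ℕ → Bool} : cl x = cl y ↔ Cg x y := by
  unfold cl
  exact Quotient.eq (r := cgSetoid)

/-- the product of two classes -/
def mulSg : Sg → Sg → Sg :=
  Quotient.map₂ jo fun _ _ h _ _ h' => (Cg.left _ h).trans (Cg.right _ h')

theorem mulSg_cl (x y : ℕ → Bool) : mulSg (cl x) (cl y) = cl (jo x y) := rfl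

instance : CommSemigroup Sg where
  mul := mulSg
  mul_assoc := by
    intro a b c
    induction a using Quotient.inductionOn with | _ a => ?_
    induction b using Quotient.inductionOn with | _ b => ?_
    induction c using Quotient.inductionOn with | _ c => ?_
    exact cl_eq.2 (Cg.assoc a b c)
  mul_comm := by
    intro a b
    induction a using Quotient.inductionOn with | _ a => ?_
    induction b using Quotient.inductionOn with | _ b => ?_
    exact cl_eq.2 (Cg.comm a b)

theorem cl_jo (x y : ℕ → Bool) : cl (jo x y) = cl x * cl y := rfl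

/-! ## Partitions into residue classes -/

/-- a real is the product of its restrictions to the classes of a partition of `ℕ` into residue
classes modulo powers of two -/
theorem cl_prod : ∀ (c : ℕ) (s : Finset ℕ) (k i : ℕ → ℕ), s.card = c →
    (∀ r ∈ s, i r < 2 ^ k r) → (∀ n, ∃ r ∈ s, n % 2 ^ k r = i r) →
    (∀ n, ∀ r ∈ s, ∀ r' ∈ s, n % 2 ^ k r = i r → n % 2 ^ k r' = i r' → r = r') →
    ∀ x : ℕ → Bool, ((cl x : Sg) : WithOne Sg) =
      ∏ r ∈ s, ((cl fun n => x (2 ^ k r * n + i r) : Sg) : WithOne Sg) := by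
  intro c
  induction c using Nat.strong_induction_on with
  | _ c ih =>
    intro s k i hc hi hex hun x
    by_cases h0 : ∃ r ∈ s, k r = 0
    · obtain ⟨r, hr, hk⟩ := h0
      have hir : i r = 0 := by
        have := hi r hr
        rw [hk] at this
        simpa using this
      have hs : s = {r} := by
        ext r'
        rw [Finset.mem_singleton]
        constructor
        · intro hr'
          refine hun (i r') r' hr' r hr (Nat.mod_eq_of_lt (hi r' hr')) ?_
          rw [hk, hir, pow_zero, Nat.mod_one]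
        · rintro rfl
          exact hr
      rw [hs, Finset.prod_singleton, hk, hir]
      simp
    · have hk : ∀ r ∈ s, k r = (k r - 1) + 1 := by
        intro r hr
        have : k r ≠ 0 := fun h => h0 ⟨r, hr, h⟩
        omega
      have hmod : ∀ r ∈ s, ∀ n e, e < 2 → ((2 * n + e) % 2 ^ k r = i r ↔
          (i r % 2 = e ∧ n % 2 ^ (k r - 1) = i r / 2)) := by
        intro r hr n e he
        have h1 : 2 ^ k r = 2 * 2 ^ (k r - 1) := by
          conv_lhs => rw [hk r hr]
          rw [pow_succ]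
          ring
        rw [h1]
        have h2 : (2 * n + e) % (2 * 2 ^ (k r - 1)) = 2 * (n % 2 ^ (k r - 1)) + e := by
          have hd := Nat.div_add_mod n (2 ^ (k r - 1))
          have hl : n % 2 ^ (k r - 1) < 2 ^ (k r - 1) := Nat.mod_lt _ (by positivity)
          rw [show 2 * n + e = (2 * (n % 2 ^ (k r - 1)) + e) +
            (2 * 2 ^ (k r - 1)) * (n / 2 ^ (k r - 1)) by
              conv_lhs => rw [← hd]
              ring]
          rw [Nat.add_mul_mod_self_left]
          exact Nat.mod_eq_of_lt (by omega)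
        rw [h2]
        omega
      have key : ∀ e, e < 2 → ((cl fun n => x (2 * n + e) : Sg) : WithOne Sg) =
          ∏ r ∈ s with i r % 2 = e, ((cl fun n => x (2 ^ k r * n + i r) : Sg) : WithOne Sg) := by
        intro e he
        have hcard : (s.filter fun r => i r % 2 = e).card < c := by
          rw [← hc]
          refine Finset.card_lt_card ?_
          refine Finset.filter_ssubset.2 ?_
          obtain ⟨r, hr, h⟩ := hex (2 * 0 + (1 - e))
          refine ⟨r, hr, ?_⟩
          have := ((hmod r hr 0 (1 - e) (by omega)).1 h).1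
          omega
        rw [ih _ hcard _ (fun r => k r - 1) (fun r => i r / 2) rfl ?_ ?_ ?_]
        · refine Finset.prod_congr rfl ?_
          intro r hr
          rw [Finset.mem_filter] at hr
          have h1 : 2 ^ k r = 2 * 2 ^ (k r - 1) := by
            conv_lhs => rw [hk r hr.1]
            rw [pow_succ]
            ring
          have h2 : (fun n => x (2 * (2 ^ (k r - 1) * n + i r / 2) + e)) =
              fun n => x (2 ^ k r * n + i r) := by
            funext n
            congr 1
            rw [h1]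
            have := hr.2
            have h3 : 2 * (2 ^ (k r - 1) * n + i r / 2) + e =
              2 * 2 ^ (k r - 1) * n + (2 * (i r / 2) + e) := by ring
            rw [h3]
            omega
          rw [h2]
        · intro r hr
          rw [Finset.mem_filter] at hr
          have h1 : 2 ^ k r = 2 * 2 ^ (k r - 1) := by
            conv_lhs => rw [hk r hr.1]
            rw [pow_succ]
            ring
          have := hi r hr.1
          show i r / 2 < 2 ^ (k r - 1)
          omega
        · intro n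
          obtain ⟨r, hr, h⟩ := hex (2 * n + e)
          have := (hmod r hr n e he).1 h
          exact ⟨r, Finset.mem_filter.2 ⟨hr, this.1⟩, this.2⟩
        · intro n r hr r' hr' h h'
          rw [Finset.mem_filter] at hr hr'
          exact hun (2 * n + e) r hr.1 r' hr'.1 ((hmod r hr.1 n e he).2 ⟨hr.2, h⟩)
            ((hmod r' hr'.1 n e he).2 ⟨hr'.2, h'⟩)
      have hx : ((cl x : Sg) : WithOne Sg) =
          ((cl fun n => x (2 * n + 0) : Sg) : WithOne Sg) * ((cl fun n => x (2 * n + 1) : Sg) : WithOne Sg) := by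
        rw [← WithOne.coe_mul, ← cl_jo]
        congr 2
        exact (jo_halves x).symm
      rw [hx, key 0 (by omega), key 1 (by omega)]
      rw [← Finset.prod_filter_mul_prod_filter_not s (fun r => i r % 2 = 0)]
      congr 1
      refine Finset.prod_congr ?_ fun _ _ => rfl
      refine Finset.filter_congr ?_
      intro r _
      omega

/-- the permutations in `V` stay inside the congruence -/
theorem cg_of_isV {π : Equiv.Perm ℕ} (hπ : IsV π) (x : ℕ → Bool) : Cg (fun n => x (π n)) x := by
  obtain ⟨N, hN⟩ := hπ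
  have hN' : ∀ r, ∃ k i, r < 2 ^ N → ∀ n, π (2 ^ N * n + r) = 2 ^ k * n + i := by
    intro r
    by_cases hr : r < 2 ^ N
    · obtain ⟨k, i, h⟩ := hN r hr
      exact ⟨k, i, fun _ => h⟩
    · exact ⟨0, 0, fun h => absurd h hr⟩
  choose k i h using hN'
  have hdm : ∀ m, 2 ^ N * (m / 2 ^ N) + m % 2 ^ N = m := fun m => Nat.div_add_mod m _
  have hlt : ∀ m, m % 2 ^ N < 2 ^ N := fun m => Nat.mod_lt _ (by positivity)
  -- each number is in one of the progressions
  have hsurj : ∀ n, ∃ r q, r < 2 ^ N ∧ n = 2 ^ k r * q + i r := by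
    intro n
    obtain ⟨m, rfl⟩ := π.surjective n
    refine ⟨m % 2 ^ N, m / 2 ^ N, hlt m, ?_⟩
    rw [← h _ (hlt m), hdm]
  have hinj : ∀ r q r' q', r < 2 ^ N → r' < 2 ^ N → 2 ^ k r * q + i r = 2 ^ k r' * q' + i r' →
      r = r' ∧ q = q' := by
    intro r q r' q' hr hr' he
    rw [← h r hr, ← h r' hr'] at he
    have := π.injective he
    have h1 : (2 ^ N * q + r) % 2 ^ N = (2 ^ N * q' + r') % 2 ^ N := by rw [this]
    have h2 : (2 ^ N * q + r) / 2 ^ N = (2 ^ N * q' + r') / 2 ^ N := by rw [this]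
    rw [Nat.mul_add_mod, Nat.mul_add_mod, Nat.mod_eq_of_lt hr, Nat.mod_eq_of_lt hr'] at h1
    rw [Nat.mul_add_div (by positivity), Nat.mul_add_div (by positivity), Nat.div_eq_of_lt hr,
      Nat.div_eq_of_lt hr'] at h2
    exact ⟨h1, by omega⟩
  -- the remainders are reduced
  have hred : ∀ r, r < 2 ^ N → i r < 2 ^ k r := by
    intro r hr
    by_contra hge
    push Not at hge
    obtain ⟨r', q', hr', hq'⟩ := hsurj (i r - 2 ^ k r)
    have h1 : 2 ^ k r * (2 ^ k r' - 1) + i r = 2 ^ k r' * (q' + 2 ^ k r) + i r' := by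
      obtain ⟨a, ha⟩ : ∃ a, 2 ^ k r' = a + 1 :=
        ⟨2 ^ k r' - 1, (Nat.sub_add_cancel Nat.one_le_two_pow).symm⟩
      have h3 : i r = 2 ^ k r' * q' + i r' + 2 ^ k r := by omega
      rw [h3, ha, Nat.add_sub_cancel]
      ring
    obtain ⟨h4, -⟩ := hinj r _ r' _ hr hr' h1
    subst h4
    have h5 : 0 < 2 ^ k r := by positivity
    omega
  have hmem : ∀ n r, r < 2 ^ N → n % 2 ^ k r = i r → n = 2 ^ k r * (n / 2 ^ k r) + i r := by
    intro n r hr hn
    rw [← hn, Nat.div_add_mod]
  have h1 := cl_prod _ (Finset.range (2 ^ N)) k i rfl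
    (fun r hr => hred r (Finset.mem_range.1 hr))
    (fun n => by
      obtain ⟨r, q, hr, hq⟩ := hsurj n
      refine ⟨r, Finset.mem_range.2 hr, ?_⟩
      rw [hq, Nat.mul_add_mod, Nat.mod_eq_of_lt (hred r hr)])
    (fun n r hr r' hr' hn hn' =>
      (hinj r _ r' _ (Finset.mem_range.1 hr) (Finset.mem_range.1 hr')
        ((hmem n r (Finset.mem_range.1 hr) hn).symm.trans
          (hmem n r' (Finset.mem_range.1 hr') hn'))).1) x
  have h2 := cl_prod _ (Finset.range (2 ^ N)) (fun _ => N) (fun r => r) rfl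
    (fun r hr => Finset.mem_range.1 hr)
    (fun n => ⟨n % 2 ^ N, Finset.mem_range.2 (hlt n), rfl⟩)
    (fun n r _ r' _ hn hn' => hn.symm.trans hn') (fun n => x (π n))
  have h3 : ∀ r ∈ Finset.range (2 ^ N),
      ((cl fun n => x (π (2 ^ N * n + r)) : Sg) : WithOne Sg) =
        ((cl fun n => x (2 ^ k r * n + i r) : Sg) : WithOne Sg) := by
    intro r hr
    have : (fun n => x (π (2 ^ N * n + r))) = fun n => x (2 ^ k r * n + i r) := by
      funext n
      rw [h r (Finset.mem_range.1 hr)]
    rw [this]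
  rw [Finset.prod_congr rfl h3, ← h1] at h2
  exact cl_eq.1 (WithOne.coe_injective h2)

/-- GEN: a set of reals which is invariant under `u` and `v` is `V`-invariant. -/
theorem gen {A : Set (ℕ → Bool)} (hA : UVInv A) : VInv A :=
  fun _ hπ x => ((cg_of_isV hπ x).sound hA).symm

/-! ## The converse -/

/-- `u` as a permutation -/
noncomputable def puE : Equiv.Perm ℕ :=
  Equiv.ofBijective pu <| by
    have h6 : ∀ n, pu (pu (pu (pu (pu (pu n))))) = n := by
      intro n
      obtain ⟨m, h | h | h | h | h⟩ : ∃ m, n = 4 * m ∨ n = 4 * m + 1 ∨ n = 4 * m + 2 ∨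
          n = 8 * m + 3 ∨ n = 8 * m + 7 := by
        rcases (by omega : n % 4 ≠ 3 ∨ n % 4 = 3) with h | h
        · exact ⟨n / 4, by omega⟩
        · exact ⟨n / 8, by omega⟩
      all_goals subst h; simp only [pu_0, pu_1, pu_2, pu_3, pu_7]
    exact ⟨fun a b h => by rw [← h6 a, ← h6 b, h], fun n => ⟨_, h6 n⟩⟩

/-- `v` as a permutation -/
noncomputable def pvE : Equiv.Perm ℕ :=
  Equiv.ofBijective pv <| by
    have h3 : ∀ n, pv (pv (pv n)) = n := by
      intro n
      obtain ⟨m, h | h | h | h⟩ : ∃ m, n = 4 * m ∨ n = 4 * m + 1 ∨ n = 4 * m + 2 ∨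
          n = 4 * m + 3 := ⟨n / 4, by omega⟩
      all_goals subst h; simp only [pv_0, pv_1, pv_2, pv_3]
    exact ⟨fun a b h => by rw [← h3 a, ← h3 b, h], fun n => ⟨_, h3 n⟩⟩

theorem isV_puE : IsV puE := by
  refine ⟨3, fun r hr => ?_⟩
  have e : ∀ n, puE n = pu n := fun _ => rfl
  simp only [e]
  have h8 : (2 : ℕ) ^ 3 = 8 := by norm_num
  rw [h8] at hr
  interval_cases r
  · exact ⟨3, 2, fun n => by
      rw [show 2 ^ 3 * n + 0 = 4 * (2 * n) by ring, pu_0]; ring⟩
  · exact ⟨4, 3, fun n => by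
      rw [show 2 ^ 3 * n + 1 = 4 * (2 * n) + 1 by ring, pu_1]; ring⟩
  · exact ⟨3, 0, fun n => by
      rw [show 2 ^ 3 * n + 2 = 4 * (2 * n) + 2 by ring, pu_2]; ring⟩
  · exact ⟨3, 7, fun n => by
      rw [show 2 ^ 3 * n + 3 = 8 * n + 3 by ring, pu_3]; ring⟩
  · exact ⟨3, 6, fun n => by
      rw [show 2 ^ 3 * n + 4 = 4 * (2 * n + 1) by ring, pu_0]; ring⟩
  · exact ⟨4, 11, fun n => by
      rw [show 2 ^ 3 * n + 5 = 4 * (2 * n + 1) + 1 by ring, pu_1]; ring⟩
  · exact ⟨3, 4, fun n => by
      rw [show 2 ^ 3 * n + 6 = 4 * (2 * n + 1) + 2 by ring, pu_2]; ring⟩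
  · exact ⟨2, 1, fun n => by
      rw [show 2 ^ 3 * n + 7 = 8 * n + 7 by ring, pu_7]; ring⟩

theorem isV_pvE : IsV pvE := by
  refine ⟨2, fun r hr => ?_⟩
  have e : ∀ n, pvE n = pv n := fun _ => rfl
  simp only [e]
  have h4 : (2 : ℕ) ^ 2 = 4 := by norm_num
  rw [h4] at hr
  interval_cases r
  · exact ⟨2, 0, fun n => by
      rw [show 2 ^ 2 * n + 0 = 4 * n by ring, pv_0]⟩
  · exact ⟨2, 3, fun n => by
      rw [show 2 ^ 2 * n + 1 = 4 * n + 1 by ring, pv_1]; ring⟩
  · exact ⟨2, 1, fun n => by
      rw [show 2 ^ 2 * n + 2 = 4 * n + 2 by ring, pv_2]; ring⟩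
  · exact ⟨2, 2, fun n => by
      rw [show 2 ^ 2 * n + 3 = 4 * n + 3 by ring, pv_3]; ring⟩

theorem vInv_iff (A : Set (ℕ → Bool)) : VInv A ↔ UVInv A :=
  ⟨fun h => ⟨fun x => h puE isV_puE x, fun x => h pvE isV_pvE x⟩, gen⟩

end Pool.Agent.TDV.H40
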