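import Pool.Agent.TDV.Stmts
import Pool.Agent.TDV.UV

/-!
# Squad TDV (MP_917879_lc), module GEN, part 1

Two explicit permutations `u` and `v` of the positions; the laws for the sets invariant under both.
-/

set_option autoImplicit false

namespace Pool.Agent.TDV.H40

open Pool.Agent.TDV

theorem pu_0 (n : ℕ) : pu (4 * n) = 4 * n + 2 := by
  unfold pu
  rw [if_pos (by omega)]

theorem pu_2 (n : ℕ) : pu (4 * n + 2) = 4 * n := by
  unfold pu
  rw [if_neg (by omega), if_pos (by omega)]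
  omega

theorem pu_1 (n : ℕ) : pu (4 * n + 1) = 8 * n + 3 := by
  unfold pu
  rw [if_neg (by omega), if_neg (by omega), if_pos (by omega)]
  omega

theorem pu_3 (n : ℕ) : pu (8 * n + 3) = 8 * n + 7 := by
  unfold pu
  rw [if_neg (by omega), if_neg (by omega), if_neg (by omega), if_pos (by omega)]

theorem pu_7 (n : ℕ) : pu (8 * n + 7) = 4 * n + 1 := by
  unfold pu
  rw [if_neg (by omega), if_neg (by omega), if_neg (by omega), if_neg (by omega)]
  omega

theorem pv_0 (n : ℕ) : pv (4 * n) = 4 * n := by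
  unfold pv
  rw [if_pos (by omega)]

theorem pv_1 (n : ℕ) : pv (4 * n + 1) = 4 * n + 3 := by
  unfold pv
  rw [if_neg (by omega), if_pos (by omega)]

theorem pv_2 (n : ℕ) : pv (4 * n + 2) = 4 * n + 1 := by
  unfold pv
  rw [if_neg (by omega), if_neg (by omega)]
  omega

theorem pv_3 (n : ℕ) : pv (4 * n + 3) = 4 * n + 2 := by
  unfold pv
  rw [if_neg (by omega), if_neg (by omega)]
  omega

theorem jo_even (x y : ℕ → Bool) (n : ℕ) : jo x y (2 * n) = x n := by
  unfold jo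
  rw [if_pos (by omega)]
  congr 1
  omega

theorem jo_odd (x y : ℕ → Bool) (n : ℕ) : jo x y (2 * n + 1) = y n := by
  unfold jo
  rw [if_neg (by omega)]
  congr 1
  omega

theorem jo_halves (x : ℕ → Bool) : jo (fun n => x (2 * n)) (fun n => x (2 * n + 1)) = x := by
  funext n
  rcases Nat.even_or_odd' n with ⟨m, rfl | rfl⟩
  · rw [jo_even]
  · rw [jo_odd]

theorem exists_jo (x : ℕ → Bool) : ∃ y z, x = jo y z := ⟨_, _, (jo_halves x).symm⟩

theorem j4_0 (p q r s : ℕ → Bool) (n : ℕ) : jo (jo p q) (jo r s) (4 * n) = p n := by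
  rw [show 4 * n = 2 * (2 * n) by ring, jo_even, jo_even]

theorem j4_1 (p q r s : ℕ → Bool) (n : ℕ) : jo (jo p q) (jo r s) (4 * n + 1) = r n := by
  rw [show 4 * n + 1 = 2 * (2 * n) + 1 by ring, jo_odd, jo_even]

theorem j4_2 (p q r s : ℕ → Bool) (n : ℕ) : jo (jo p q) (jo r s) (4 * n + 2) = q n := by
  rw [show 4 * n + 2 = 2 * (2 * n + 1) by ring, jo_even, jo_odd]

theorem j4_3 (p q r s : ℕ → Bool) (n : ℕ) : jo (jo p q) (jo r s) (4 * n + 3) = s n := by
  rw [show 4 * n + 3 = 2 * (2 * n + 1) + 1 by ring, jo_odd, jo_odd]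

theorem jo_pv (p q r s : ℕ → Bool) :
    (fun n => jo (jo p q) (jo r s) (pv n)) = jo (jo p r) (jo s q) := by
  funext n
  obtain ⟨m, h | h | h | h⟩ : ∃ m, n = 4 * m ∨ n = 4 * m + 1 ∨ n = 4 * m + 2 ∨ n = 4 * m + 3 :=
    ⟨n / 4, by omega⟩
  · subst h
    simp only [pv_0, j4_0]
  · subst h
    simp only [pv_1, j4_1, j4_3]
  · subst h
    simp only [pv_2, j4_2, j4_1]
  · subst h
    simp only [pv_3, j4_3, j4_2]

theorem jo_pu (p q r w z : ℕ → Bool) :
    (fun n => jo (jo p q) (jo r (jo w z)) (pu n)) = jo (jo q p) (jo w (jo z r)) := by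
  funext n
  obtain ⟨m, h | h | h | h | h⟩ : ∃ m, n = 4 * m ∨ n = 4 * m + 1 ∨ n = 4 * m + 2 ∨
      n = 8 * m + 3 ∨ n = 8 * m + 7 := by
    rcases (by omega : n % 4 ≠ 3 ∨ n % 4 = 3) with h | h
    · exact ⟨n / 4, by omega⟩
    · exact ⟨n / 8, by omega⟩
  · subst h
    simp only [pu_0, j4_0, j4_2]
  · subst h
    simp only [pu_1, j4_1]
    rw [show 8 * m + 3 = 4 * (2 * m) + 3 by ring, j4_3, jo_even]
  · subst h
    simp only [pu_2, j4_0, j4_2]
  · subst h
    simp only [pu_3]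
    rw [show 8 * m + 7 = 4 * (2 * m + 1) + 3 by ring, j4_3, jo_odd,
      show 8 * m + 3 = 4 * (2 * m) + 3 by ring, j4_3, jo_even]
  · subst h
    simp only [pu_7]
    rw [show 8 * m + 7 = 4 * (2 * m + 1) + 3 by ring, j4_3, jo_odd, j4_1]

/-! ## The laws for `E x x' := (x ∈ A ↔ x' ∈ A)` -/

section laws

variable {A : Set (ℕ → Bool)}

theorem lawV (hA : UVInv A) (p q r s : ℕ → Bool) :
    jo (jo p q) (jo r s) ∈ A ↔ jo (jo p r) (jo s q) ∈ A := by
  rw [← jo_pv p q r s]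
  exact hA.2 _

theorem lawU (hA : UVInv A) (p q r w z : ℕ → Bool) :
    jo (jo p q) (jo r (jo w z)) ∈ A ↔ jo (jo q p) (jo w (jo z r)) ∈ A := by
  rw [← jo_pu p q r w z]
  exact hA.1 _

/-- `u ^ 3`: commutativity inside the left half -/
theorem commL (hA : UVInv A) (p q m : ℕ → Bool) : jo (jo p q) m ∈ A ↔ jo (jo q p) m ∈ A := by
  obtain ⟨r, m', rfl⟩ := exists_jo m
  obtain ⟨w, z, rfl⟩ := exists_jo m'
  rw [lawU hA, lawU hA, lawU hA]

/-- `u ^ 4`: a three-cycle inside the right half -/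
theorem cycR (hA : UVInv A) (m r w z : ℕ → Bool) :
    jo m (jo r (jo w z)) ∈ A ↔ jo m (jo w (jo z r)) ∈ A := by
  obtain ⟨p, q, rfl⟩ := exists_jo m
  rw [lawU hA p q r w z, commL hA]

/-- the transposition of the quarters 00 and 10 -/
theorem sw02 (hA : UVInv A) (p q r s : ℕ → Bool) :
    jo (jo p q) (jo r s) ∈ A ↔ jo (jo r q) (jo p s) ∈ A := by
  -- `(p q | r s) → (p r | s q) → (r p | s q) → ...`
  rw [lawV hA p q r s, commL hA p r, lawV hA r p s q, lawV hA r s q p]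

theorem sw12 (hA : UVInv A) (p q r s : ℕ → Bool) :
    jo (jo p q) (jo r s) ∈ A ↔ jo (jo p r) (jo q s) ∈ A := by
  rw [commL hA p q, sw02 hA q p r s, commL hA r p]

theorem commR (hA : UVInv A) (m r s : ℕ → Bool) : jo m (jo r s) ∈ A ↔ jo m (jo s r) ∈ A := by
  obtain ⟨p, q, rfl⟩ := exists_jo m
  rw [lawV hA p q r s, sw12 hA p r s q, ← lawV hA p q s r]

theorem rcomm (hA : UVInv A) (x y : ℕ → Bool) : jo x y ∈ A ↔ jo y x ∈ A := by
  obtain ⟨p, q, rfl⟩ := exists_jo x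
  obtain ⟨r, s, rfl⟩ := exists_jo y
  rw [sw02 hA p q r s, commL hA r q, commR hA _ p s, sw02 hA q r s p, commL hA s r, commR hA _ q p]

theorem cycL (hA : UVInv A) (m r w z : ℕ → Bool) :
    jo (jo r (jo w z)) m ∈ A ↔ jo (jo w (jo z r)) m ∈ A := by
  rw [rcomm hA, cycR hA, rcomm hA]

/-- associativity inside the left half -/
theorem assocL (hA : UVInv A) (x y z m : ℕ → Bool) :
    jo (jo (jo x y) z) m ∈ A ↔ jo (jo x (jo y z)) m ∈ A := by
  rw [commL hA, cycL hA]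

/-- the transposition of a quarter in the left half with an eighth in the right half -/
theorem swmw (hA : UVInv A) (c m r w z : ℕ → Bool) :
    jo (jo c m) (jo r (jo w z)) ∈ A ↔ jo (jo c w) (jo r (jo m z)) ∈ A := by
  rw [cycR hA _ r w z, sw12 hA c m w _, cycR hA _ m z r, cycR hA _ z r m]

theorem swmz (hA : UVInv A) (c m r w z : ℕ → Bool) :
    jo (jo c m) (jo r (jo w z)) ∈ A ↔ jo (jo c z) (jo r (jo w m)) ∈ A := by
  rw [cycR hA _ r w z, cycR hA _ w z r, sw12 hA c m z _, cycR hA _ m r w]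

theorem rassoc (hA : UVInv A) (x y z : ℕ → Bool) :
    jo (jo x y) z ∈ A ↔ jo x (jo y z) ∈ A := by
  obtain ⟨x0, x1, rfl⟩ := exists_jo x
  obtain ⟨z0, z1, rfl⟩ := exists_jo z
  rw [commL hA _ y, sw12 hA y _ z0 z1, commR hA _ _ z1, sw12 hA y z0 z1 _,
    swmw hA y z1 z0 x0 x1, commL hA y x0, swmz hA x0 y z0 z1 x1, cycR hA _ z0 z1 y,
    cycR hA _ z1 y z0]

/-! ## The congruence generated by commutativity and associativity -/

/-- the congruence generated by commutativity and associativity of `jo` -/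
inductive Cg : (ℕ → Bool) → (ℕ → Bool) → Prop
  | refl (x : ℕ → Bool) : Cg x x
  | symm {x y : ℕ → Bool} : Cg x y → Cg y x
  | trans {x y z : ℕ → Bool} : Cg x y → Cg y z → Cg x z
  | comm (x y : ℕ → Bool) : Cg (jo x y) (jo y x)
  | assoc (x y z : ℕ → Bool) : Cg (jo (jo x y) z) (jo x (jo y z))
  | left {x x' : ℕ → Bool} (y : ℕ → Bool) : Cg x x' → Cg (jo x y) (jo x' y)

theorem Cg.sound' (hA : UVInv A) {x x' : ℕ → Bool} (h : Cg x x') :
    (x ∈ A ↔ x' ∈ A) ∧ ∀ y, jo x y ∈ A ↔ jo x' y ∈ A := by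
  induction h with
  | refl x => exact ⟨Iff.rfl, fun _ => Iff.rfl⟩
  | symm _ ih => exact ⟨ih.1.symm, fun y => (ih.2 y).symm⟩
  | trans _ _ ih1 ih2 => exact ⟨ih1.1.trans ih2.1, fun y => (ih1.2 y).trans (ih2.2 y)⟩
  | comm x y => exact ⟨rcomm hA x y, fun m => commL hA x y m⟩
  | assoc x y z => exact ⟨rassoc hA x y z, fun m => assocL hA x y z m⟩
  | left y _ ih =>
    refine ⟨ih.2 y, fun z => ?_⟩
    rw [rassoc hA, rassoc hA]
    exact ih.2 _

theorem Cg.sound (hA : UVInv A) {x x' : ℕ → Bool} (h : Cg x x') : x ∈ A ↔ x' ∈ A :=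
  (h.sound' hA).1

end laws

end Pool.Agent.TDV.H40
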